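import Pool.Agent.H262R3.Lk.Stubs

set_option autoImplicit false

/-! ALG: identities between the Dirichlet series (project MH). -/

open Finset

namespace Pool.Agent.H262R3.Lk

open Pool.Agent.H318R2.Cr (Rgh V)

namespace Alg

theorem fz_mul (z : ℕ) {q : ℕ} (χ : DirichletCharacter ℂ q) (m n : ℕ) :
    fz z χ (m * n) = fz z χ m * fz z χ n := by
  have h1 : Rgh z (m * n) ↔ Rgh z m ∧ Rgh z n := by
    constructor
    · intro h
      exact ⟨fun p hp hpz hd => h p hp hpz (hd.mul_right n),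
        fun p hp hpz hd => h p hp hpz (hd.mul_left m)⟩
    · rintro ⟨h1, h2⟩ p hp hpz hd
      rcases (Nat.Prime.dvd_mul hp).mp hd with h | h
      · exact h1 p hp hpz h
      · exact h2 p hp hpz h
  unfold fz
  by_cases hm : Rgh z m
  · by_cases hn : Rgh z n
    · rw [if_pos (h1.2 ⟨hm, hn⟩), if_pos hm, if_pos hn]
      push_cast
      exact map_mul χ _ _
    · rw [if_neg (fun h => hn (h1.1 h).2), if_neg hn, mul_zero]
  · rw [if_neg (fun h => hm (h1.1 h).1), if_neg hm, zero_mul]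

theorem fz_one (z : ℕ) {q : ℕ} (χ : DirichletCharacter ℂ q) : fz z χ 1 = 1 := by
  have : Rgh z 1 := fun p hp _ h => hp.one_lt.ne' (Nat.dvd_one.mp h)
  simp [fz, this]

theorem fz_zero (z : ℕ) (hz : 2 ≤ z) {q : ℕ} (χ : DirichletCharacter ℂ q) : fz z χ 0 = 0 := by
  have : ¬ Rgh z 0 := fun h => h 2 Nat.prime_two hz (dvd_zero _)
  simp [fz, this]

theorem fz_le (z : ℕ) {q : ℕ} (χ : DirichletCharacter ℂ q) (n : ℕ) : ‖fz z χ n‖ ≤ 1 := by
  unfold fz
  split_ifs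
  · exact DirichletCharacter.norm_le_one χ _
  · simp

/-- the weighted series as an `LSeries` -/
noncomputable def T (z : ℕ) {q : ℕ} (χ : DirichletCharacter ℂ q) (σ : ℝ) (g : ℕ → ℝ) : ℂ :=
  LSeries (fun n => fz z χ n * (g n : ℂ)) ((1 + σ : ℝ) : ℂ)

theorem term_eq (z : ℕ) (hz : 2 ≤ z) {q : ℕ} (χ : DirichletCharacter ℂ q) (σ : ℝ) (g : ℕ → ℝ) (n : ℕ) :
    LSeries.term (fun n => fz z χ n * (g n : ℂ)) ((1 + σ : ℝ) : ℂ) n =
      fz z χ n * ((g n / (n : ℝ) ^ (1 + σ) : ℝ) : ℂ) := by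
  rcases Nat.eq_zero_or_pos n with rfl | hn
  · rw [LSeries.term_zero, fz_zero z hz, zero_mul]
  · rw [LSeries.term_of_ne_zero hn.ne']
    have : ((n : ℂ)) ^ (((1 + σ : ℝ)) : ℂ) = (((n : ℝ) ^ (1 + σ) : ℝ) : ℂ) := by
      rw [Complex.ofReal_cpow (Nat.cast_nonneg n)]
      norm_cast
    rw [this]
    push_cast
    ring

theorem T_eq (z : ℕ) (hz : 2 ≤ z) {q : ℕ} (χ : DirichletCharacter ℂ q) (σ : ℝ) (g : ℕ → ℝ) :
    T z χ σ g = ∑' n : ℕ, fz z χ n * ((g n / (n : ℝ) ^ (1 + σ) : ℝ) : ℂ) := by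
  unfold T LSeries
  exact tsum_congr fun n => term_eq z hz χ σ g n

/-- summability of the weighted series -/
def Ok (σ : ℝ) (g : ℕ → ℝ) : Prop := Summable (fun n : ℕ => |g n| / (n : ℝ) ^ (1 + σ))

theorem Ok.ls {z : ℕ} (hz : 2 ≤ z) {q : ℕ} (χ : DirichletCharacter ℂ q) {σ : ℝ} {g : ℕ → ℝ}
    (h : Ok σ g) : LSeriesSummable (fun n => fz z χ n * (g n : ℂ)) ((1 + σ : ℝ) : ℂ) := by
  unfold LSeriesSummable
  refine Summable.of_norm (Summable.of_nonneg_of_le (fun _ => norm_nonneg _) (fun n => ?_) h)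
  rw [term_eq z hz, norm_mul, Complex.norm_real, Real.norm_eq_abs, abs_div,
    abs_of_nonneg (by positivity : (0:ℝ) ≤ (n : ℝ) ^ (1 + σ))]
  exact mul_le_of_le_one_left (by positivity) (fz_le z χ n)

/-- real Dirichlet convolution -/
noncomputable def cv (g h : ℕ → ℝ) (n : ℕ) : ℝ := ∑ p ∈ n.divisorsAntidiagonal, g p.1 * h p.2

theorem T_cv {z : ℕ} (hz : 2 ≤ z) {q : ℕ} (χ : DirichletCharacter ℂ q) {σ : ℝ} {g h : ℕ → ℝ}
    (hg : Ok σ g) (hh : Ok σ h) : T z χ σ (cv g h) = T z χ σ g * T z χ σ h := by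
  unfold T
  rw [← LSeries_convolution' (hg.ls hz χ) (hh.ls hz χ)]
  congr 1
  ext n
  rw [LSeries.convolution_def]
  unfold cv
  push_cast
  rw [Finset.mul_sum]
  refine Finset.sum_congr rfl fun p hp => ?_
  rw [← (Nat.mem_divisorsAntidiagonal.1 hp).1, fz_mul]
  ring

theorem T_congr {z : ℕ} {q : ℕ} (χ : DirichletCharacter ℂ q) {σ : ℝ} {g h : ℕ → ℝ}
    (e : ∀ n, n ≠ 0 → g n = h n) : T z χ σ g = T z χ σ h := by
  unfold T
  apply LSeries_congr
  intro n hn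
  simp only [e n hn]

theorem Ok.add {σ : ℝ} {g h : ℕ → ℝ} (hg : Ok σ g) (hh : Ok σ h) : Ok σ (fun n => g n + h n) := by
  refine Summable.of_nonneg_of_le (fun _ => by positivity) (fun n => ?_) (Summable.add hg hh)
  rw [← add_div]
  gcongr
  exact abs_add_le _ _

theorem Ok.smul {σ : ℝ} {g : ℕ → ℝ} (c : ℝ) (hg : Ok σ g) : Ok σ (fun n => c * g n) := by
  have := hg.mul_left |c|
  refine this.congr fun n => ?_
  rw [abs_mul, mul_div_assoc]

theorem T_add {z : ℕ} (hz : 2 ≤ z) {q : ℕ} (χ : DirichletCharacter ℂ q) {σ : ℝ} {g h : ℕ → ℝ}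
    (hg : Ok σ g) (hh : Ok σ h) : T z χ σ (fun n => g n + h n) = T z χ σ g + T z χ σ h := by
  unfold T
  rw [← LSeries_add (hg.ls hz χ) (hh.ls hz χ)]
  congr 1
  ext n
  simp only [Pi.add_apply]
  push_cast
  ring

theorem T_smul {z : ℕ} {q : ℕ} (χ : DirichletCharacter ℂ q) {σ : ℝ} {g : ℕ → ℝ}
    (c : ℝ) : T z χ σ (fun n => c * g n) = c * T z χ σ g := by
  unfold T LSeries
  rw [← tsum_mul_left]
  refine tsum_congr fun n => ?_
  rcases Nat.eq_zero_or_pos n with rfl | hn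
  · simp
  · rw [LSeries.term_of_ne_zero hn.ne', LSeries.term_of_ne_zero hn.ne']
    push_cast
    ring

theorem cv_add {g g' h : ℕ → ℝ} (n : ℕ) : cv (fun n => g n + g' n) h n = cv g h n + cv g' h n := by
  unfold cv
  rw [← Finset.sum_add_distrib]
  exact Finset.sum_congr rfl fun p _ => by ring

open ArithmeticFunction in
/-- `log^(k+1) = ∑ Λ(a) (log a + log b)^k` -/
theorem log_pow (k n : ℕ) : Real.log n ^ (k + 1) =
    ∑ p ∈ n.divisorsAntidiagonal, vonMangoldt p.1 * (Real.log p.1 + Real.log p.2) ^ k := by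
  have h1 : ∑ p ∈ n.divisorsAntidiagonal, vonMangoldt p.1 = Real.log n := by
    have h := congrArg (fun f => f n) vonMangoldt_mul_zeta
    simp only [ArithmeticFunction.mul_apply, ArithmeticFunction.log_apply] at h
    rw [← h]
    refine Finset.sum_congr rfl fun p hp => ?_
    have h2 : p.2 ≠ 0 := by
      have := Nat.mem_divisorsAntidiagonal.1 hp
      intro h0
      rw [h0, mul_zero] at this
      exact this.2 this.1.symm
    simp [ArithmeticFunction.natCoe_apply, ArithmeticFunction.zeta_apply, h2]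
  rw [pow_succ, ← h1, Finset.mul_sum, h1]
  refine Finset.sum_congr rfl fun p hp => ?_
  have h3 := Nat.mem_divisorsAntidiagonal.1 hp
  have h4 : p.1 ≠ 0 := by
    intro h0
    rw [h0, zero_mul] at h3
    exact h3.2 h3.1.symm
  have h5 : p.2 ≠ 0 := by
    intro h0
    rw [h0, mul_zero] at h3
    exact h3.2 h3.1.symm
  have h6 : Real.log n = Real.log p.1 + Real.log p.2 := by
    rw [← Real.log_mul (by exact_mod_cast h4) (by exact_mod_cast h5), ← Nat.cast_mul, h3.1]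
  rw [h6]
  ring

/-- `log^j` -/
noncomputable def ll (j : ℕ) (n : ℕ) : ℝ := Real.log n ^ j

/-- `Λ log^j` -/
noncomputable def dd (j : ℕ) (n : ℕ) : ℝ := ArithmeticFunction.vonMangoldt n * Real.log n ^ j

theorem ll1 (n : ℕ) (_ : n ≠ 0) : ll 1 n = cv (dd 0) (ll 0) n := by
  have := log_pow 0 n
  unfold cv ll dd
  rw [this]
  exact Finset.sum_congr rfl fun p _ => by ring

theorem ll2 (n : ℕ) (_ : n ≠ 0) : ll 2 n = cv (dd 1) (ll 0) n + cv (dd 0) (ll 1) n := by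
  have := log_pow 1 n
  unfold cv ll dd
  rw [this, ← Finset.sum_add_distrib]
  exact Finset.sum_congr rfl fun p _ => by ring

theorem ll3 (n : ℕ) (_ : n ≠ 0) : ll 3 n = cv (dd 2) (ll 0) n +
    (2 * cv (dd 1) (ll 1) n + cv (dd 0) (ll 2) n) := by
  have := log_pow 2 n
  unfold cv ll dd
  rw [this, Finset.mul_sum, ← Finset.sum_add_distrib, ← Finset.sum_add_distrib]
  exact Finset.sum_congr rfl fun p _ => by ring

theorem ok_iff {σ : ℝ} (hσ : 0 < σ) (F : ℕ → ℂ) : LSeriesSummable F ((1 + σ : ℝ) : ℂ) ↔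
    Summable (fun n : ℕ => ‖F n‖ / (n : ℝ) ^ (1 + σ)) := by
  unfold LSeriesSummable
  rw [← summable_norm_iff]
  refine summable_congr fun n => ?_
  rw [LSeries.norm_term_eq]
  rcases Nat.eq_zero_or_pos n with rfl | hn
  · simp [Real.zero_rpow (by linarith : (1 + σ) ≠ 0)]
  · rw [if_neg hn.ne', Complex.ofReal_re]

theorem Ok.cv {σ : ℝ} (hσ : 0 < σ) {g h : ℕ → ℝ} (hg : Ok σ g) (hh : Ok σ h) : Ok σ (cv g h) := by
  have h1 : LSeriesSummable (fun n => ((|g n| : ℝ) : ℂ)) ((1 + σ : ℝ) : ℂ) := by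
    rw [ok_iff hσ]
    refine hg.congr fun n => ?_
    simp
  have h2 : LSeriesSummable (fun n => ((|h n| : ℝ) : ℂ)) ((1 + σ : ℝ) : ℂ) := by
    rw [ok_iff hσ]
    refine hh.congr fun n => ?_
    simp
  have h3 := (ok_iff hσ _).1 (h1.convolution h2)
  refine Summable.of_nonneg_of_le (fun _ => by positivity) (fun n => ?_) h3
  gcongr
  rw [LSeries.convolution_def]
  have : ∑ p ∈ n.divisorsAntidiagonal, (((|g p.1| : ℝ) : ℂ)) * (((|h p.2| : ℝ) : ℂ)) =
      ((∑ p ∈ n.divisorsAntidiagonal, |g p.1| * |h p.2| : ℝ) : ℂ) := by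
    push_cast
    rfl
  change |Alg.cv g h n| ≤ ‖∑ p ∈ n.divisorsAntidiagonal, (((|g p.1| : ℝ) : ℂ)) * (((|h p.2| : ℝ) : ℂ))‖
  rw [this, Complex.norm_real, Real.norm_of_nonneg (by positivity)]
  unfold Alg.cv
  refine (Finset.abs_sum_le_sum_abs _ _).trans (le_of_eq ?_)
  exact Finset.sum_congr rfl fun p _ => abs_mul _ _

end Alg

theorem alg (hSUM : St_SUM) : St_ALG := by
  intro z q χ σ hz hσ
  have hz2 : 2 ≤ z := by omega
  have okl : ∀ j, Alg.Ok σ (Alg.ll j) := by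
    intro j
    have h := (hSUM z q 0 j σ hσ).2.2.1
    refine (summable_abs_iff.2 h).congr fun n => ?_
    rw [abs_div, abs_of_nonneg (by positivity : (0:ℝ) ≤ (n : ℝ) ^ (1 + σ))]
    rfl
  have okd : ∀ j, Alg.Ok σ (Alg.dd j) := by
    intro j
    have h := (hSUM z q 0 j σ hσ).2.2.2
    refine (summable_abs_iff.2 h).congr fun n => ?_
    rw [← mul_div_assoc, abs_div, abs_of_nonneg (by positivity : (0:ℝ) ≤ (n : ℝ) ^ (1 + σ))]
    rfl
  have okm : Alg.Ok σ (fun n => ((ArithmeticFunction.moebius n : ℤ) : ℝ)) := by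
    have h := okl 0
    refine Summable.of_nonneg_of_le (fun _ => by positivity) (fun n => ?_) h
    refine div_le_div_of_nonneg_right ?_ (by positivity)
    have e1 : Alg.ll 0 n = 1 := by simp [Alg.ll]
    rw [e1, abs_one]
    change |((ArithmeticFunction.moebius n : ℤ) : ℝ)| ≤ 1
    exact_mod_cast ArithmeticFunction.abs_moebius_le_one
  have eL : ∀ j, Lj z χ j σ = Alg.T z χ σ (Alg.ll j) := by
    intro j
    rw [Alg.T_eq z hz2]
    rfl
  have eD : ∀ j, Dj z χ j σ = Alg.T z χ σ (Alg.dd j) := by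
    intro j
    rw [Alg.T_eq z hz2]
    unfold Dj Alg.dd
    refine tsum_congr fun n => ?_
    rw [mul_div_assoc]
  have eM : Mj z χ σ = Alg.T z χ σ (fun n => ((ArithmeticFunction.moebius n : ℤ) : ℝ)) := by
    rw [Alg.T_eq z hz2]
    unfold Mj
    refine tsum_congr fun n => ?_
    rw [mul_one_div]
  have h0 : Mj z χ σ * Lj z χ 0 σ = 1 := by
    rw [eM, eL, ← Alg.T_cv hz2 χ okm (okl 0)]
    have : Alg.T z χ σ (Alg.cv (fun n => ((ArithmeticFunction.moebius n : ℤ) : ℝ)) (Alg.ll 0)) =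
        Alg.T z χ σ (fun n => if n = 1 then 1 else 0) := by
      apply Alg.T_congr
      intro n hn
      unfold Alg.cv Alg.ll
      simp only [pow_zero, mul_one]
      have h := congrArg (fun f => f n) (ArithmeticFunction.coe_moebius_mul_coe_zeta (R := ℝ))
      simp only [ArithmeticFunction.mul_apply, ArithmeticFunction.one_apply] at h
      rw [← h]
      refine Finset.sum_congr rfl fun p hp => ?_
      have h2 : p.2 ≠ 0 := by
        have := Nat.mem_divisorsAntidiagonal.1 hp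
        intro h0
        rw [h0, mul_zero] at this
        exact this.2 this.1.symm
      simp [ArithmeticFunction.natCoe_apply, ArithmeticFunction.zeta_apply, h2]
    rw [this, Alg.T_eq z hz2, tsum_eq_single 1]
    · rw [Alg.fz_one]; simp
    · intro n hn
      simp [hn]
  have h1 : Lj z χ 1 σ = Dj z χ 0 σ * Lj z χ 0 σ := by
    rw [eL, eD, eL, ← Alg.T_cv hz2 χ (okd 0) (okl 0)]
    exact Alg.T_congr χ Alg.ll1
  have h2 : Lj z χ 2 σ = Dj z χ 1 σ * Lj z χ 0 σ + Dj z χ 0 σ * Lj z χ 1 σ := by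
    rw [eL, eD, eL, eD, eL, ← Alg.T_cv hz2 χ (okd 1) (okl 0), ← Alg.T_cv hz2 χ (okd 0) (okl 1),
      ← Alg.T_add hz2 χ (Alg.Ok.cv hσ (okd 1) (okl 0)) (Alg.Ok.cv hσ (okd 0) (okl 1))]
    exact Alg.T_congr χ Alg.ll2
  have h3 : Lj z χ 3 σ = Dj z χ 2 σ * Lj z χ 0 σ + (2 * (Dj z χ 1 σ * Lj z χ 1 σ) +
      Dj z χ 0 σ * Lj z χ 2 σ) := by
    rw [eL, eD, eL, eD, eL, eD, eL, ← Alg.T_cv hz2 χ (okd 2) (okl 0),
      ← Alg.T_cv hz2 χ (okd 1) (okl 1), ← Alg.T_cv hz2 χ (okd 0) (okl 2)]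
    have e2 : (2 : ℂ) * Alg.T z χ σ (Alg.cv (Alg.dd 1) (Alg.ll 1)) =
        Alg.T z χ σ (fun n => 2 * Alg.cv (Alg.dd 1) (Alg.ll 1) n) := by
      rw [Alg.T_smul]
      norm_num
    rw [e2, ← Alg.T_add hz2 χ ((Alg.Ok.cv hσ (okd 1) (okl 1)).smul 2) (Alg.Ok.cv hσ (okd 0) (okl 2)),
      ← Alg.T_add hz2 χ (Alg.Ok.cv hσ (okd 2) (okl 0))
        (((Alg.Ok.cv hσ (okd 1) (okl 1)).smul 2).add (Alg.Ok.cv hσ (okd 0) (okl 2)))]
    exact Alg.T_congr χ Alg.ll3
  refine ⟨h0, h1, ?_⟩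
  linear_combination (-1 : ℂ) * h3 + (-2 * Dj z χ 1 σ + 2 * Dj z χ 0 σ ^ 2) * h1 + 2 * Dj z χ 0 σ * h2

end Pool.Agent.H262R3.Lk
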