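import Pool.Agent.W221.NS.Stm4

/-!
Project MH, piece MH-SUP: the Sobolev inequality with derivatives of order three.
-/

set_option autoImplicit false

open MeasureTheory Set Filter Topology Metric
open scoped ContDiff ENNReal NNReal

namespace Pool.Agent.W639.MH

open H459R3.NS W221.NS

theorem cd_pd {f : V → ℝ} (hf : ContDiff ℝ ∞ f) (i : Fin 3) : ContDiff ℝ ∞ (pd i f) := by
  have h1 : ContDiff ℝ ∞ (fderiv ℝ f) := hf.fderiv_right (m := ∞) (by simp)
  exact h1.clm_apply contDiff_const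

theorem df {f : V → ℝ} (hf : ContDiff ℝ ∞ f) (x : V) : DifferentiableAt ℝ f x :=
  (hf.differentiable (by simp)).differentiableAt

theorem pd_mul {f g : V → ℝ} (hf : ContDiff ℝ ∞ f) (hg : ContDiff ℝ ∞ g) (i : Fin 3) :
    pd i (fun x => f x * g x) = fun x => pd i f x * g x + f x * pd i g x := by
  funext x
  unfold pd
  rw [fderiv_fun_mul (df hf x) (df hg x)]
  simp only [_root_.add_apply, _root_.smul_apply, smul_eq_mul]
  ring

theorem pd_add {f g : V → ℝ} (hf : ContDiff ℝ ∞ f) (hg : ContDiff ℝ ∞ g) (i : Fin 3) :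
    pd i (fun x => f x + g x) = fun x => pd i f x + pd i g x := by
  funext x
  unfold pd
  rw [fderiv_fun_add (df hf x) (df hg x)]
  rfl

/-- one variable -/
theorem one {u : V → ℝ} (hu : ContDiff ℝ ∞ u) (hc : HasCompactSupport u) (i : Fin 3) (x : V) :
    ‖u x‖ₑ ≤ (∫⋯∫⁻_{i}, (fun y => ‖pd i u y‖ₑ) ∂(fun _ : Fin 3 => (volume : Measure ℝ))) x := by
  have hu1 : ContDiff ℝ 1 u := hu.of_le (by exact_mod_cast le_top)
  rw [lmarginal_singleton]
  calc ‖u x‖ₑ
    _ ≤ ∫⁻ s in Iic (x i), ‖deriv (u ∘ Function.update x i) s‖ₑ := by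
        apply le_trans (by simp) (HasCompactSupport.enorm_le_lintegral_Ici_deriv _ _ _)
        · exact hu1.comp (by convert! contDiff_update 1 x i)
        · exact hc.comp_isClosedEmbedding (isClosedEmbedding_update x i)
    _ ≤ ∫⁻ s, ‖deriv (u ∘ Function.update x i) s‖ₑ :=
        lintegral_mono' Measure.restrict_le_self le_rfl
    _ = ∫⁻ s, ‖pd i u (Function.update x i s)‖ₑ := by
        refine lintegral_congr fun s => ?_
        rw [fderiv_comp_deriv _ (hu1.differentiable one_ne_zero).differentiableAt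
          (hasDerivAt_update x i s).differentiableAt, deriv_update]
        rfl

theorem meas_pd {u : V → ℝ} (hu : ContDiff ℝ ∞ u) (i : Fin 3) :
    Measurable (fun y => ‖pd i u y‖ₑ) := (cd_pd hu i).continuous.measurable.enorm

theorem cs_pd {u : V → ℝ} (hc : HasCompactSupport u) (i : Fin 3) : HasCompactSupport (pd i u) :=
  (hc.fderiv (𝕜 := ℝ)).comp_left (g := fun L : V →L[ℝ] ℝ => L (Pi.single i 1)) rfl

/-- three variables -/
theorem three {u : V → ℝ} (hu : ContDiff ℝ ∞ u) (hc : HasCompactSupport u) (x : V) :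
    ‖u x‖ₑ ≤ ∫⁻ y : V, ‖pd 2 (pd 1 (pd 0 u)) y‖ₑ := by
  have h0 := cd_pd hu 0
  have h1 := cd_pd h0 1
  have c0 := cs_pd hc 0
  have c1 := cs_pd c0 1
  calc ‖u x‖ₑ
    _ ≤ (∫⋯∫⁻_{0}, (fun y => ‖pd 0 u y‖ₑ) ∂(fun _ : Fin 3 => (volume : Measure ℝ))) x :=
        one hu hc 0 x
    _ ≤ (∫⋯∫⁻_{0}, (∫⋯∫⁻_{1}, (fun y => ‖pd 1 (pd 0 u) y‖ₑ)
          ∂(fun _ : Fin 3 => (volume : Measure ℝ))) ∂(fun _ : Fin 3 => (volume : Measure ℝ))) x :=
        lmarginal_mono (fun y => one h0 c0 1 y) x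
    _ ≤ (∫⋯∫⁻_{0}, (∫⋯∫⁻_{1}, (∫⋯∫⁻_{2}, (fun y => ‖pd 2 (pd 1 (pd 0 u)) y‖ₑ)
          ∂(fun _ : Fin 3 => (volume : Measure ℝ))) ∂(fun _ : Fin 3 => (volume : Measure ℝ)))
          ∂(fun _ : Fin 3 => (volume : Measure ℝ))) x :=
        lmarginal_mono (fun z => lmarginal_mono (fun y => one h1 c1 2 y) z) x
    _ = (∫⋯∫⁻_Finset.univ, (fun y => ‖pd 2 (pd 1 (pd 0 u)) y‖ₑ)
          ∂(fun _ : Fin 3 => (volume : Measure ℝ))) x := by
        have hm := meas_pd h1 2
        rw [← lmarginal_union _ _ hm (by decide), ← lmarginal_union _ _ hm (by decide)]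
        have e : ({0} : Finset (Fin 3)) ∪ ({1} ∪ {2}) = Finset.univ := by decide
        rw [e]
    _ = ∫⁻ y : V, ‖pd 2 (pd 1 (pd 0 u)) y‖ₑ := by
        rw [lmarginal_univ]
        rfl

/-- smooth functions supported in the ball of radius two -/
structure Cu (f : V → ℝ) : Prop where
  sm : ContDiff ℝ ∞ f
  z : ∀ y, y ∉ closedBall (0 : V) 2 → f y = 0

theorem Cu.pd {f : V → ℝ} (hf : Cu f) (i : Fin 3) : Cu (pd i f) := by
  refine ⟨cd_pd hf.sm i, fun y hy => ?_⟩
  have h1 : f =ᶠ[𝓝 y] fun _ => 0 := by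
    filter_upwards [isClosed_closedBall.isOpen_compl.mem_nhds hy] with z hz
    exact hf.z z hz
  unfold H459R3.NS.pd
  rw [h1.fderiv_eq, fderiv_const_apply]
  rfl

theorem Cu.cs {f : V → ℝ} (hf : Cu f) : HasCompactSupport f :=
  HasCompactSupport.intro (isCompact_closedBall (0 : V) 2) hf.z

theorem Cu.bd {f : V → ℝ} (hf : Cu f) : ∃ B : ℝ, ∀ y, |f y| ≤ B := by
  obtain ⟨B, hB⟩ := hf.cs.exists_bound_of_continuous hf.sm.continuous
  exact ⟨B, hB⟩

theorem eight {χ w : V → ℝ} (hχ : ContDiff ℝ ∞ χ) (hw : ContDiff ℝ ∞ w) :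
    pd 2 (pd 1 (pd 0 (fun x => χ x * w x))) = fun x =>
      (pd 2 (pd 1 (pd 0 χ)) x * w x + pd 1 (pd 0 χ) x * pd 2 w x +
        (pd 2 (pd 0 χ) x * pd 1 w x + pd 0 χ x * pd 2 (pd 1 w) x)) +
      ((pd 2 (pd 1 χ) x * pd 0 w x + pd 1 χ x * pd 2 (pd 0 w) x) +
        (pd 2 χ x * pd 1 (pd 0 w) x + χ x * pd 2 (pd 1 (pd 0 w)) x)) := by
  have c0 := cd_pd hχ 0
  have c1 := cd_pd hχ 1
  have c10 := cd_pd c0 1
  have w0 := cd_pd hw 0
  have w1 := cd_pd hw 1
  have w10 := cd_pd w0 1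
  rw [pd_mul hχ hw 0, pd_add (c0.mul hw) (hχ.mul w0) 1, pd_mul c0 hw 1, pd_mul hχ w0 1,
    pd_add ((c10.mul hw).add (c0.mul w1)) ((c1.mul w0).add (hχ.mul w10)) 2,
    pd_add (c10.mul hw) (c0.mul w1) 2, pd_add (c1.mul w0) (hχ.mul w10) 2,
    pd_mul c10 hw 2, pd_mul c0 w1 2, pd_mul c1 w0 2, pd_mul hχ w10 2]

theorem young (A B c g : ℝ) (hA : 0 < A) (hc : |c| ≤ B) : |c * g| ≤ B * ((g ^ 2 / A + A) / 2) := by
  have hB : 0 ≤ B := (abs_nonneg _).trans hc
  rw [abs_mul]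
  refine mul_le_mul hc ?_ (abs_nonneg _) hB
  rw [le_div_iff₀ (by norm_num), ← sub_nonneg]
  have e : g ^ 2 / A + A - |g| * 2 = (|g| - A) ^ 2 / A := by
    rw [← sq_abs g]
    field_simp
    ring
  rw [e]
  positivity

theorem int_ball {F : V → ℝ} (hF : Continuous F) (a : V) (r : ℝ) : IntegrableOn F (ball a r) :=
  (hF.continuousOn.integrableOn_compact (isCompact_closedBall a r)).mono_set ball_subset_closedBall

theorem int2 {f g : V → ℝ} {F G : ℝ} {s : Set V} (hf : IntegrableOn f s ∧ ∫ y in s, f y = F)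
    (hg : IntegrableOn g s ∧ ∫ y in s, g y = G) :
    IntegrableOn (fun y => f y + g y) s ∧ ∫ y in s, (f y + g y) = F + G :=
  ⟨hf.1.add hg.1, by rw [integral_add hf.1 hg.1, hf.2, hg.2]⟩

theorem main : ∃ C : ℝ, 0 < C ∧ ∀ (w : V → ℝ) (A : ℝ), 0 < A → ContDiff ℝ ∞ w →
    ∫ x in ball (0 : V) 8, w x ^ 2 ≤ A ^ 2 →
    (∀ i, ∫ x in ball (0 : V) 8, pd i w x ^ 2 ≤ A ^ 2) →
    (∀ i j, ∫ x in ball (0 : V) 8, pd i (pd j w) x ^ 2 ≤ A ^ 2) →
    (∀ i j k, ∫ x in ball (0 : V) 8, pd i (pd j (pd k w)) x ^ 2 ≤ A ^ 2) →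
      ∀ x ∈ ball (0 : V) 1, |w x| ≤ C * A := by
  let b : ContDiffBump (0 : V) := ⟨1, 2, by norm_num, by norm_num⟩
  set χ : V → ℝ := fun x => b x with hχdef
  have hχ : Cu χ := by
    refine ⟨b.contDiff, fun y hy => ?_⟩
    apply b.zero_of_le_dist
    rw [mem_closedBall, not_le] at hy
    exact hy.le
  have hχ1 : ∀ x ∈ ball (0 : V) 1, χ x = 1 := fun x hx =>
    b.one_of_mem_closedBall (ball_subset_closedBall hx)
  obtain ⟨B0, hB0⟩ := hχ.bd
  obtain ⟨B1, hB1⟩ := (hχ.pd 0).bd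
  obtain ⟨B2, hB2⟩ := (hχ.pd 1).bd
  obtain ⟨B3, hB3⟩ := (hχ.pd 2).bd
  obtain ⟨B4, hB4⟩ := ((hχ.pd 0).pd 1).bd
  obtain ⟨B5, hB5⟩ := ((hχ.pd 0).pd 2).bd
  obtain ⟨B6, hB6⟩ := ((hχ.pd 1).pd 2).bd
  obtain ⟨B7, hB7⟩ := (((hχ.pd 0).pd 1).pd 2).bd
  set B : ℝ := |B0| + |B1| + |B2| + |B3| + |B4| + |B5| + |B6| + |B7| + 1 with hB
  have n0 := abs_nonneg B0
  have n1 := abs_nonneg B1
  have n2 := abs_nonneg B2
  have n3 := abs_nonneg B3
  have n4 := abs_nonneg B4
  have n5 := abs_nonneg B5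
  have n6 := abs_nonneg B6
  have n7 := abs_nonneg B7
  have hBpos : 0 < B := by positivity
  have l0 : B0 ≤ B := by have := le_abs_self B0; linarith
  have l1 : B1 ≤ B := by have := le_abs_self B1; linarith
  have l2 : B2 ≤ B := by have := le_abs_self B2; linarith
  have l3 : B3 ≤ B := by have := le_abs_self B3; linarith
  have l4 : B4 ≤ B := by have := le_abs_self B4; linarith
  have l5 : B5 ≤ B := by have := le_abs_self B5; linarith
  have l6 : B6 ≤ B := by have := le_abs_self B6; linarith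
  have l7 : B7 ≤ B := by have := le_abs_self B7; linarith
  set v0 : ℝ := (volume : Measure V).real (ball (0 : V) 8) with hv0
  have hv0n : 0 ≤ v0 := measureReal_nonneg
  refine ⟨B * (4 * (1 + v0)), by positivity, ?_⟩
  intro w A hA hw a0 a1 a2 a3 x hx
  set W : V → ℝ := fun x => χ x * w x with hW
  have hWc : Cu W := ⟨hχ.sm.mul hw, fun y hy => by simp only [hW]; rw [hχ.z y hy, zero_mul]⟩
  have w0 := cd_pd hw 0
  have w1 := cd_pd hw 1
  have w2 := cd_pd hw 2
  have w10 := cd_pd w0 1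
  have w20 := cd_pd w0 2
  have w21 := cd_pd w1 2
  have w210 := cd_pd w10 2
  -- the majorant
  set G : (V → ℝ) → V → ℝ := fun g y => B * ((g y ^ 2 / A + A) / 2) with hG
  have hGc : ∀ g : V → ℝ, Continuous g → Continuous (G g) := by
    intro g hg
    simp only [hG]
    fun_prop
  have hGi : ∀ g : V → ℝ, Continuous g → ∫ y in ball (0 : V) 8, g y ^ 2 ≤ A ^ 2 →
      ∫ y in ball (0 : V) 8, G g y ≤ B * (A * (1 + v0) / 2) := by
    intro g hg hgA
    have i1 : IntegrableOn (fun y => g y ^ 2 / A) (ball (0 : V) 8) :=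
      int_ball ((hg.pow 2).div_const _) _ _
    have i2 : IntegrableOn (fun _ : V => A) (ball (0 : V) 8) := int_ball continuous_const _ _
    simp only [hG]
    rw [integral_const_mul, integral_div, integral_add i1 i2, integral_div, setIntegral_const,
      ← hv0, smul_eq_mul]
    refine mul_le_mul_of_nonneg_left ?_ hBpos.le
    have h3 : (∫ y in ball (0 : V) 8, g y ^ 2) / A ≤ A := by
      rw [div_le_iff₀ hA]; nlinarith
    rw [div_le_div_iff_of_pos_right (by norm_num)]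
    nlinarith
  set H : V → ℝ := fun y => (G w y + G (pd 2 w) y + (G (pd 1 w) y + G (pd 2 (pd 1 w)) y)) +
    ((G (pd 0 w) y + G (pd 2 (pd 0 w)) y) +
      (G (pd 1 (pd 0 w)) y + G (pd 2 (pd 1 (pd 0 w))) y)) with hH
  have hGn : ∀ g y, 0 ≤ G g y := fun g y => by
    simp only [hG]; positivity
  have hHn : ∀ y, 0 ≤ H y := by
    intro y
    have := hGn w y
    have := hGn (pd 2 w) y
    have := hGn (pd 1 w) y
    have := hGn (pd 2 (pd 1 w)) y
    have := hGn (pd 0 w) y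
    have := hGn (pd 2 (pd 0 w)) y
    have := hGn (pd 1 (pd 0 w)) y
    have := hGn (pd 2 (pd 1 (pd 0 w))) y
    simp only [hH]
    linarith
  have k0 := hGc w hw.continuous
  have k1 := hGc _ w0.continuous
  have k2 := hGc _ w1.continuous
  have k3 := hGc _ w2.continuous
  have k4 := hGc _ w10.continuous
  have k5 := hGc _ w20.continuous
  have k6 := hGc _ w21.continuous
  have k7 := hGc _ w210.continuous
  have hHc : Continuous H := by
    simp only [hH]
    exact ((k0.add k3).add (k2.add k6)).add ((k1.add k5).add (k4.add k7))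
  have hHi : ∫ y in ball (0 : V) 8, H y ≤ B * (4 * (1 + v0)) * A := by
    have j0 := int_ball k0 0 8
    have j1 := int_ball k1 0 8
    have j2 := int_ball k2 0 8
    have j3 := int_ball k3 0 8
    have j4 := int_ball k4 0 8
    have j5 := int_ball k5 0 8
    have j6 := int_ball k6 0 8
    have j7 := int_ball k7 0 8
    have e : ∫ y in ball (0 : V) 8, H y =
        ((∫ y in ball (0 : V) 8, G w y) + (∫ y in ball (0 : V) 8, G (pd 2 w) y) +
          ((∫ y in ball (0 : V) 8, G (pd 1 w) y) +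
            (∫ y in ball (0 : V) 8, G (pd 2 (pd 1 w)) y))) +
        (((∫ y in ball (0 : V) 8, G (pd 0 w) y) +
            (∫ y in ball (0 : V) 8, G (pd 2 (pd 0 w)) y)) +
          ((∫ y in ball (0 : V) 8, G (pd 1 (pd 0 w)) y) +
            (∫ y in ball (0 : V) 8, G (pd 2 (pd 1 (pd 0 w))) y))) := by
      exact (int2 (int2 (int2 ⟨j0, rfl⟩ ⟨j3, rfl⟩) (int2 ⟨j2, rfl⟩ ⟨j6, rfl⟩))
        (int2 (int2 ⟨j1, rfl⟩ ⟨j5, rfl⟩) (int2 ⟨j4, rfl⟩ ⟨j7, rfl⟩))).2
    rw [e]
    have m0 := hGi w hw.continuous a0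
    have m1 := hGi _ w0.continuous (a1 0)
    have m2 := hGi _ w1.continuous (a1 1)
    have m3 := hGi _ w2.continuous (a1 2)
    have m4 := hGi _ w10.continuous (a2 1 0)
    have m5 := hGi _ w20.continuous (a2 2 0)
    have m6 := hGi _ w21.continuous (a2 2 1)
    have m7 := hGi _ w210.continuous (a3 2 1 0)
    linarith
  -- pointwise bound
  have hpt : ∀ y, |pd 2 (pd 1 (pd 0 W)) y| ≤ H y := by
    intro y
    rw [hW, eight hχ.sm hw]
    have b0 := young A B _ (w y) hA ((hB7 y).trans l7)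
    have b1 := young A B _ (pd 2 w y) hA ((hB4 y).trans l4)
    have b2 := young A B _ (pd 1 w y) hA ((hB5 y).trans l5)
    have b3 := young A B _ (pd 2 (pd 1 w) y) hA ((hB1 y).trans l1)
    have b4 := young A B _ (pd 0 w y) hA ((hB6 y).trans l6)
    have b5 := young A B _ (pd 2 (pd 0 w) y) hA ((hB2 y).trans l2)
    have b6 := young A B _ (pd 1 (pd 0 w) y) hA ((hB3 y).trans l3)
    have b7 := young A B _ (pd 2 (pd 1 (pd 0 w)) y) hA ((hB0 y).trans l0)
    simp only [hH, hG]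
    refine (abs_add_le _ _).trans (add_le_add ((abs_add_le _ _).trans (add_le_add
      ((abs_add_le _ _).trans (add_le_add b0 b1)) ((abs_add_le _ _).trans (add_le_add b2 b3))))
      ((abs_add_le _ _).trans (add_le_add
      ((abs_add_le _ _).trans (add_le_add b4 b5)) ((abs_add_le _ _).trans (add_le_add b6 b7)))))
  have hzero : ∀ y, y ∉ ball (0 : V) 8 → pd 2 (pd 1 (pd 0 W)) y = 0 := by
    intro y hy
    refine (((hWc.pd 0).pd 1).pd 2).z y fun h => hy ?_
    exact closedBall_subset_ball (by norm_num) h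
  have hfin : ‖W x‖ₑ ≤ ENNReal.ofReal (B * (4 * (1 + v0)) * A) := by
    refine (three hWc.sm hWc.cs x).trans ?_
    calc ∫⁻ y : V, ‖pd 2 (pd 1 (pd 0 W)) y‖ₑ
        ≤ ∫⁻ y : V, (ball (0 : V) 8).indicator (fun y => ENNReal.ofReal (H y)) y := by
          refine lintegral_mono fun y => ?_
          by_cases hy : y ∈ ball (0 : V) 8
          · rw [indicator_of_mem hy, Real.enorm_eq_ofReal_abs]
            exact ENNReal.ofReal_le_ofReal (hpt y)
          · rw [indicator_of_notMem hy, hzero y hy, enorm_zero]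
      _ = ∫⁻ y in ball (0 : V) 8, ENNReal.ofReal (H y) := lintegral_indicator measurableSet_ball _
      _ = ENNReal.ofReal (∫ y in ball (0 : V) 8, H y) :=
          (ofReal_integral_eq_lintegral_ofReal (int_ball hHc 0 8)
            (Eventually.of_forall hHn)).symm
      _ ≤ _ := ENNReal.ofReal_le_ofReal hHi
  have hWx : W x = w x := by
    simp only [hW]
    rw [hχ1 x hx, one_mul]
  rw [hWx, Real.enorm_eq_ofReal_abs, ENNReal.ofReal_le_ofReal_iff (by positivity)] at hfin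
  exact hfin

theorem t_SUP : S_SUP := by
  obtain ⟨C, hC, h⟩ := main
  refine ⟨C, hC, fun w A hA hw a0 a1 a2 a3 x hx => ?_⟩
  refine le_of_forall_pos_le_add fun ε hε => ?_
  have hA' : 0 < A + ε / C := by positivity
  have hle : A ^ 2 ≤ (A + ε / C) ^ 2 := by
    have : 0 < ε / C := by positivity
    nlinarith
  have := h w (A + ε / C) hA' hw (a0.trans hle) (fun i => (a1 i).trans hle)
    (fun i j => (a2 i j).trans hle) (fun i j k => (a3 i j k).trans hle) x hx
  calc |w x| ≤ C * (A + ε / C) := this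
    _ = C * A + ε := by field_simp

end Pool.Agent.W639.MH
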